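import Mathlib

/-!
# Locating chromatic numbers of `K_m □ C_n` and `K_m □ P_n`

For all `m, n ≥ 16` both locating chromatic numbers are equal to `m + 1` if `n ≤ m + 1` and to
`m + 2` otherwise.
-/

namespace Pool.Agent.Results.MP_6ba634_co.LocatingPrisms

open SimpleGraph

/-- The distance from `v` to the class of the colour `x`. -/
noncomputable def distTo {V : Type*} {k : ℕ} (G : SimpleGraph V) (c : V → Fin k) (v : V)
    (x : Fin k) : ℕ :=
  sInf {d | ∃ s, c s = x ∧ G.dist v s = d}

/-- `c` is a locating colouring of `G` with `k` (nonempty) colour classes. -/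
def IsLocating {V : Type*} {k : ℕ} (G : SimpleGraph V) (c : V → Fin k) : Prop :=
  (∀ u v, G.Adj u v → c u ≠ c v) ∧ Function.Surjective c ∧
    ∀ u v, (∀ x, distTo G c u x = distTo G c v x) → u = v

/-- The locating chromatic number. -/
noncomputable def locChrom {V : Type*} (G : SimpleGraph V) : ℕ :=
  sInf {k | ∃ c : V → Fin k, IsLocating G c}

/-! ### Distances to a set -/

/-- The distance from `v` to the set `S`. -/
noncomputable def dto {V : Type*} (G : SimpleGraph V) (S : Set V) (v : V) : ℕ :=
  sInf {d | ∃ s, s ∈ S ∧ G.dist v s = d}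

section General

variable {V : Type*} {G : SimpleGraph V} {S : Set V}

theorem dto_le {s : V} (hs : s ∈ S) (v : V) : dto G S v ≤ G.dist v s :=
  Nat.sInf_le ⟨s, hs, rfl⟩

theorem exists_dto (hS : S.Nonempty) (v : V) : ∃ s ∈ S, G.dist v s = dto G S v := by
  obtain ⟨s, hs⟩ := hS
  obtain ⟨t, ht, h⟩ := Nat.sInf_mem (s := {d | ∃ s, s ∈ S ∧ G.dist v s = d}) ⟨_, s, hs, rfl⟩
  exact ⟨t, ht, h⟩

theorem dto_adj (hG : G.Connected) (hS : S.Nonempty) {u v : V} (h : G.Adj u v) :
    dto G S u ≤ dto G S v + 1 := by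
  obtain ⟨s, hs, hd⟩ := exists_dto (G := G) hS v
  have h1 := dto_le (G := G) hs u
  have h2 := hG.dist_triangle (u := u) (v := v) (w := s)
  have h3 : G.dist u v = 1 := dist_eq_one_iff_adj.mpr h
  omega

theorem first_step (hG : G.Connected) {u s : V} {D : ℕ} (h : G.dist u s = D + 1) :
    ∃ w, G.Adj u w ∧ G.dist w s = D := by
  obtain ⟨p, hp⟩ := hG.exists_walk_length_eq_dist u s
  rw [h] at hp
  cases p with
  | nil => simp at hp
  | @cons _ w _ hw q =>
    refine ⟨w, hw, ?_⟩
    rw [Walk.length_cons] at hp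
    have h1 := dist_le q
    have h2 := hG.dist_triangle (u := u) (v := w) (w := s)
    have h3 : G.dist u w = 1 := dist_eq_one_iff_adj.mpr hw
    omega

/-- Maximum degree at most two. -/
def DegTwo (G : SimpleGraph V) : Prop :=
  ∀ j a b c, G.Adj j a → G.Adj j b → G.Adj j c → a = b ∨ a = c ∨ b = c

theorem unique_nearest (hG : G.Connected) (hdeg : DegTwo G) (hS : S.Nonempty) (D : ℕ) :
    ∀ j j' s t, G.Adj j j' → dto G S j = D → dto G S j' = D + 1 → s ∈ S → t ∈ S →
      G.dist j s = D → G.dist j t = D → s = t := by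
  induction D with
  | zero =>
    intro j j' s t _ _ _ _ _ hs ht
    rw [(hG.dist_eq_zero_iff).mp hs] at ht
    exact (hG.dist_eq_zero_iff).mp ht
  | succ D ih =>
    intro j j' s t hjj hj hj' hs ht hds hdt
    obtain ⟨a, ha, hda⟩ := first_step hG hds
    obtain ⟨b, hb, hdb⟩ := first_step hG hdt
    have h1 := dto_le (G := G) hs a
    have h2 := dto_le (G := G) ht b
    have ha' : j' ≠ a := by rintro rfl; omega
    have hb' : j' ≠ b := by rintro rfl; omega
    have hab : a = b := by
      rcases hdeg j j' a b hjj ha hb with h | h | h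
      · exact absurd h ha'
      · exact absurd h hb'
      · exact h
    subst hab
    have h3 := dto_adj hG hS ha
    exact ih a j s t ha.symm (by omega) hj hs ht hda hdb

theorem two_nearest (hG : G.Connected) (hdeg : DegTwo G) (hS : S.Nonempty) (j s t r : V)
    (hs : s ∈ S) (ht : t ∈ S) (hr : r ∈ S) (hds : G.dist j s = dto G S j)
    (hdt : G.dist j t = dto G S j) (hdr : G.dist j r = dto G S j) : s = t ∨ s = r ∨ t = r := by
  rcases Nat.eq_zero_or_pos (dto G S j) with h0 | h0
  · rw [h0] at hds hdt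
    left
    rw [← (hG.dist_eq_zero_iff).mp hds]
    exact (hG.dist_eq_zero_iff).mp hdt
  · obtain ⟨D, hD⟩ : ∃ D, dto G S j = D + 1 := ⟨dto G S j - 1, by omega⟩
    rw [hD] at hds hdt hdr
    obtain ⟨a, ha, hda⟩ := first_step hG hds
    obtain ⟨b, hb, hdb⟩ := first_step hG hdt
    obtain ⟨c, hc, hdc⟩ := first_step hG hdr
    have h1 := dto_le (G := G) hs a
    have h2 := dto_le (G := G) ht b
    have h3 := dto_le (G := G) hr c
    have h4 := dto_adj hG hS ha
    have h5 := dto_adj hG hS hb
    have h6 := dto_adj hG hS hc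
    rcases hdeg j a b c ha hb hc with h | h | h
    · subst h
      exact Or.inl (unique_nearest hG hdeg hS D a j s t ha.symm (by omega) hD hs ht hda hdb)
    · subst h
      exact Or.inr (Or.inl
        (unique_nearest hG hdeg hS D a j s r ha.symm (by omega) hD hs hr hda hdc))
    · subst h
      exact Or.inr (Or.inr
        (unique_nearest hG hdeg hS D b j t r hb.symm (by omega) hD ht hr hdb hdc))

theorem distTo_eq_dto {k : ℕ} (c : V → Fin k) (v : V) (x : Fin k) :
    distTo G c v x = dto G {s | c s = x} v := rfl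

theorem distTo_self {k : ℕ} (c : V → Fin k) (v : V) : distTo G c v (c v) = 0 := by
  have := dto_le (G := G) (S := {s | c s = c v}) (s := v) rfl v
  rw [dist_self] at this
  rw [distTo_eq_dto]
  omega

theorem distTo_eq_one_iff {k : ℕ} (hG : G.Connected) {c : V → Fin k} {v : V} {x : Fin k}
    (h : c v ≠ x) : distTo G c v x = 1 ↔ ∃ w, G.Adj v w ∧ c w = x := by
  constructor
  · intro h1
    have hne : {s | c s = x}.Nonempty := by
      by_contra hne
      rw [Set.not_nonempty_iff_eq_empty] at hne
      rw [distTo_eq_dto, hne] at h1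
      simp [dto] at h1
    obtain ⟨s, hs, hd⟩ := exists_dto (G := G) hne v
    rw [distTo_eq_dto] at h1
    rw [h1] at hd
    exact ⟨s, dist_eq_one_iff_adj.mp hd, hs⟩
  · rintro ⟨w, hw, hc⟩
    have h1 := dto_le (G := G) (S := {s | c s = x}) hc v
    rw [dist_eq_one_iff_adj.mpr hw] at h1
    obtain ⟨s, hs, hd⟩ := exists_dto (G := G) (S := {s | c s = x}) ⟨w, hc⟩ v
    have h2 : dto G {s | c s = x} v ≠ 0 := by
      intro h0
      rw [h0] at hd
      rw [(hG.dist_eq_zero_iff).mp hd] at h
      exact h hs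
    rw [distTo_eq_dto]
    omega

end General

/-! ### The product with a complete graph -/

section Product

variable {W : Type*} {H : SimpleGraph W} {m : ℕ}

theorem dist_prod (hH : H.Connected) (u v : Fin m × W) :
    ((⊤ : SimpleGraph (Fin m)) □ H).dist u v = (if u.1 = v.1 then 0 else 1) + H.dist u.2 v.2 := by
  have h : H.Reachable u.2 v.2 := hH.preconnected _ _
  rw [SimpleGraph.dist, edist_boxProd, edist_top, ← h.coe_dist_eq_edist]
  split_ifs
  · simp
  · have : (1 : ℕ∞) + ((H.dist u.2 v.2 : ℕ) : ℕ∞) = ((1 + H.dist u.2 v.2 : ℕ) : ℕ∞) := by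
      push_cast; rfl
    rw [this, ENat.toNat_natCast]

theorem prod_connected (hm : 0 < m) (hH : H.Connected) :
    ((⊤ : SimpleGraph (Fin m)) □ H).Connected := by
  have : Nonempty (Fin m) := ⟨⟨0, hm⟩⟩
  exact connected_top.boxProd hH

variable {k : ℕ} {c : Fin m × W → Fin k}

theorem col_inj (hc : ∀ u v, ((⊤ : SimpleGraph (Fin m)) □ H).Adj u v → c u ≠ c v) (j : W) :
    Function.Injective fun i => c (i, j) := by
  intro i i' h
  by_contra hne
  exact hc (i, j) (i', j) (by rw [boxProd_adj]; exact Or.inl ⟨hne, rfl⟩) h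

theorem row_ne (hc : ∀ u v, ((⊤ : SimpleGraph (Fin m)) □ H).Adj u v → c u ≠ c v) {j j' : W}
    (h : H.Adj j j') (i : Fin m) : c (i, j) ≠ c (i, j') :=
  hc (i, j) (i, j') (by rw [boxProd_adj]; exact Or.inr ⟨h, rfl⟩)

theorem distTo_one_of_col (hm : 0 < m) (hH : H.Connected) {i : Fin m} {j : W} {x : Fin k}
    (h : c (i, j) ≠ x) (h' : ∃ i', c (i', j) = x) :
    distTo ((⊤ : SimpleGraph (Fin m)) □ H) c (i, j) x = 1 := by
  obtain ⟨i', hi'⟩ := h'
  rw [distTo_eq_one_iff (prod_connected hm hH) h]
  refine ⟨(i', j), ?_, hi'⟩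
  rw [boxProd_adj]
  left
  refine ⟨?_, rfl⟩
  rintro rfl
  exact h hi'

/-- The distance to a colour missing in the column. -/
theorem distTo_special (hH : H.Connected) {i : Fin m} {j : W} {x : Fin k} {s : W}
    (hs : c (i, s) = x) (hd : H.dist j s = dto H {t | ∃ r, c (r, t) = x} j) :
    distTo ((⊤ : SimpleGraph (Fin m)) □ H) c (i, j) x = dto H {t | ∃ r, c (r, t) = x} j := by
  have h1 := dto_le (G := (⊤ : SimpleGraph (Fin m)) □ H) (S := {s | c s = x}) (s := (i, s)) hs (i, j)
  rw [dist_prod hH] at h1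
  simp only [if_true, zero_add] at h1
  obtain ⟨⟨r, t⟩, ht, hdt⟩ := exists_dto (G := (⊤ : SimpleGraph (Fin m)) □ H)
    (S := {s | c s = x}) ⟨(i, s), hs⟩ (i, j)
  rw [dist_prod hH] at hdt
  have h2 := dto_le (G := H) (S := {t | ∃ r, c (r, t) = x}) (s := t) ⟨r, ht⟩ j
  rw [distTo_eq_dto]
  simp only at hdt
  omega

theorem distTo_generic (hH : H.Connected) {i : Fin m} {j : W} {x : Fin k}
    (hx : ∃ v, c v = x)
    (hs : ∀ s, c (i, s) = x → H.dist j s ≠ dto H {t | ∃ r, c (r, t) = x} j) :
    distTo ((⊤ : SimpleGraph (Fin m)) □ H) c (i, j) x = dto H {t | ∃ r, c (r, t) = x} j + 1 := by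
  obtain ⟨⟨r0, s0⟩, h0⟩ := hx
  rw [distTo_eq_dto]
  obtain ⟨t, ⟨r, hr⟩, hdt⟩ := exists_dto (G := H) (S := {t | ∃ r, c (r, t) = x}) ⟨s0, r0, h0⟩ j
  have h1 := dto_le (G := (⊤ : SimpleGraph (Fin m)) □ H) (S := {s | c s = x}) (s := (r, t)) hr (i, j)
  rw [dist_prod hH] at h1
  obtain ⟨⟨r', t'⟩, ht', hdt'⟩ := exists_dto (G := (⊤ : SimpleGraph (Fin m)) □ H)
    (S := {s | c s = x}) ⟨(r, t), hr⟩ (i, j)
  rw [dist_prod hH] at hdt'
  have h2 := dto_le (G := H) (S := {t | ∃ r, c (r, t) = x}) (s := t') ⟨r', ht'⟩ j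
  simp only at hdt' h1
  have h3 : (if i = r then 0 else 1) ≤ 1 := by split_ifs <;> omega
  by_cases hi : i = r'
  · subst hi
    have h4 := hs t' ht'
    rw [if_pos rfl] at hdt'
    omega
  · rw [if_neg hi] at hdt'
    omega


/-! ### Lower bounds -/

theorem all_ones_inj (hloc : IsLocating ((⊤ : SimpleGraph (Fin m)) □ H) c) {u v : Fin m × W}
    (hu : ∀ x, c u ≠ x → distTo ((⊤ : SimpleGraph (Fin m)) □ H) c u x = 1)
    (hv : ∀ x, c v ≠ x → distTo ((⊤ : SimpleGraph (Fin m)) □ H) c v x = 1)
    (h : c u = c v) : u = v := by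
  apply hloc.2.2
  intro x
  by_cases hx : c u = x
  · rw [← hx, distTo_self, h, distTo_self]
  · rw [hu x hx, hv x (h ▸ hx)]

theorem card_le (hc : ∀ u v, ((⊤ : SimpleGraph (Fin m)) □ H).Adj u v → c u ≠ c v) (j : W) :
    m ≤ k := by
  have := Fintype.card_le_of_injective _ (col_inj hc j)
  simpa using this

theorem lower_one (hm : 0 < m) (hH : H.Connected) {j j' : W} (hj : j ≠ j')
    (hloc : IsLocating ((⊤ : SimpleGraph (Fin m)) □ H) c) : m + 1 ≤ k := by
  have h1 := card_le hloc.1 j
  by_contra hlt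
  have hk : k = m := by omega
  subst hk
  have hsurj : ∀ t, Function.Surjective fun i => c (i, t) := fun t =>
    (Finite.injective_iff_surjective).mp (col_inj hloc.1 t)
  obtain ⟨i', hi'⟩ := hsurj j' (c (⟨0, hm⟩, j))
  have h2 : ((⟨0, hm⟩, j) : Fin k × W) = (i', j') := by
    apply all_ones_inj hloc
    · intro x hx
      exact distTo_one_of_col hm hH hx (hsurj j x)
    · intro x hx
      exact distTo_one_of_col hm hH hx (hsurj j' x)
    · exact hi'.symm
  exact hj (congrArg Prod.snd h2)

theorem missing {c : Fin m × W → Fin (m + 1)}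
    (hc : ∀ u v, ((⊤ : SimpleGraph (Fin m)) □ H).Adj u v → c u ≠ c v) (j : W) :
    ∃ a, ∀ x, (∃ i, c (i, j) = x) ↔ x ≠ a := by
  have h1 : (Finset.univ.image fun i => c (i, j)).card = m := by
    rw [Finset.card_image_of_injective _ (col_inj hc j)]
    simp
  have h2 : (Finset.univ.image fun i => c (i, j))ᶜ.card = 1 := by
    rw [Finset.card_compl, h1]
    simp
  obtain ⟨a, ha⟩ := Finset.card_eq_one.mp h2
  refine ⟨a, fun x => ?_⟩
  have h3 : x ∈ (Finset.univ.image fun i => c (i, j))ᶜ ↔ x = a := by rw [ha]; simp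
  rw [Finset.mem_compl, Finset.mem_image] at h3
  constructor
  · rintro ⟨i, hi⟩ hx
    exact h3.mpr hx ⟨i, Finset.mem_univ _, hi⟩
  · intro hx
    by_contra hne
    apply hx
    apply h3.mp
    rintro ⟨i, _, hi⟩
    exact hne ⟨i, hi⟩

open Classical in
/-- The special rows. -/
noncomputable def special (H : SimpleGraph W) (c : Fin m × W → Fin k) (x : Fin k) (j : W) :
    Finset (Fin m) :=
  Finset.univ.filter fun i => ∃ s, c (i, s) = x ∧ H.dist j s = dto H {t | ∃ r, c (r, t) = x} j

theorem mem_special {x : Fin k} {j : W} {i : Fin m} : i ∈ special H c x j ↔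
    ∃ s, c (i, s) = x ∧ H.dist j s = dto H {t | ∃ r, c (r, t) = x} j := by
  simp [special]

theorem card_special (hH : H.Connected) (hdeg : DegTwo H)
    (hc : ∀ u v, ((⊤ : SimpleGraph (Fin m)) □ H).Adj u v → c u ≠ c v) {x : Fin k}
    (hx : ∃ v, c v = x) (j : W) : (special H c x j).card ≤ 2 := by
  by_contra hlt
  rw [not_le, Finset.two_lt_card] at hlt
  obtain ⟨a, ha, b, hb, d, hd, hab, had, hbd⟩ := hlt
  rw [mem_special] at ha hb hd
  obtain ⟨s, hs, hds⟩ := ha
  obtain ⟨t, ht, hdt⟩ := hb
  obtain ⟨r, hr, hdr⟩ := hd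
  obtain ⟨⟨r0, s0⟩, h0⟩ := hx
  rcases two_nearest hH hdeg (S := {t | ∃ r, c (r, t) = x}) ⟨s0, r0, h0⟩ j s t r ⟨a, hs⟩ ⟨b, ht⟩
    ⟨d, hr⟩ hds hdt hdr with h | h | h
  · subst h
    exact hab (col_inj hc s (hs.trans ht.symm))
  · subst h
    exact had (col_inj hc s (hs.trans hr.symm))
  · subst h
    exact hbd (col_inj hc t (ht.trans hr.symm))

theorem adj_missing_aux (hm : 5 ≤ m) (hH : H.Connected) (hdeg : DegTwo H)
    {c : Fin m × W → Fin (m + 1)} (hloc : IsLocating ((⊤ : SimpleGraph (Fin m)) □ H) c)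
    {j j' : W} (hadj : H.Adj j j') {x : Fin (m + 1)}
    (hj : ∀ y, (∃ i, c (i, j) = y) ↔ y ≠ x) (hj' : ∀ y, (∃ i, c (i, j') = y) ↔ y ≠ x)
    (hle : dto H {t | ∃ r, c (r, t) = x} j ≤ dto H {t | ∃ r, c (r, t) = x} j') : False := by
  have hm0 : 0 < m := by omega
  have hx : ∃ v, c v = x := hloc.2.1 x
  have hS : {t | ∃ r, c (r, t) = x}.Nonempty := by
    obtain ⟨⟨r0, s0⟩, h0⟩ := hx
    exact ⟨s0, r0, h0⟩
  have hne : j ≠ j' := hadj.ne
  have hcol : ∀ i, c (i, j) ≠ x := fun i => (hj _).mp ⟨i, rfl⟩
  have hcol' : ∀ i, c (i, j') ≠ x := fun i => (hj' _).mp ⟨i, rfl⟩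
  -- equality of all distances once the distances to the class of `x` agree
  have key : ∀ i i', c (i, j) = c (i', j') →
      distTo ((⊤ : SimpleGraph (Fin m)) □ H) c (i, j) x
        = distTo ((⊤ : SimpleGraph (Fin m)) □ H) c (i', j') x → False := by
    intro i i' hi hd
    apply hne
    have : ((i, j) : Fin m × W) = (i', j') := by
      apply hloc.2.2
      intro y
      by_cases hy : c (i, j) = y
      · rw [← hy, distTo_self, hi, distTo_self]
      · by_cases hy' : y = x
        · rw [hy', hd]
        · rw [distTo_one_of_col hm0 hH hy ((hj y).mpr hy'),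
            distTo_one_of_col hm0 hH (hi ▸ hy) ((hj' y).mpr hy')]
    exact congrArg Prod.snd this
  rcases Nat.lt_or_ge (dto H {t | ∃ r, c (r, t) = x} j) (dto H {t | ∃ r, c (r, t) = x} j')
    with hlt | hge
  · -- the distances differ by one
    have h1 := dto_adj hH hS hadj.symm
    have hD : dto H {t | ∃ r, c (r, t) = x} j' = dto H {t | ∃ r, c (r, t) = x} j + 1 := by omega
    obtain ⟨s, ⟨r, hr⟩, hds⟩ := exists_dto (G := H) hS j
    obtain ⟨i, hi⟩ := (hj (c (r, j'))).mpr (hcol' r)
    have hir : i ≠ r := by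
      rintro rfl
      exact row_ne hloc.1 hadj i hi
    apply key i r hi
    have h2 : H.dist j' s = dto H {t | ∃ r, c (r, t) = x} j' := by
      have h3 := dto_le (G := H) (S := {t | ∃ r, c (r, t) = x}) (s := s) ⟨r, hr⟩ j'
      have h4 := hH.dist_triangle (u := j') (v := j) (w := s)
      have h5 : H.dist j' j = 1 := dist_eq_one_iff_adj.mpr hadj.symm
      omega
    rw [distTo_special hH hr h2, hD]
    apply distTo_generic hH hx
    intro s' hs' hds'
    have := unique_nearest hH hdeg hS _ j j' s s' hadj rfl hD ⟨r, hr⟩ ⟨i, hs'⟩ hds hds'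
    subst this
    exact hir (col_inj hloc.1 s (hs'.trans hr.symm))
  · -- the distances agree
    have hD : dto H {t | ∃ r, c (r, t) = x} j = dto H {t | ∃ r, c (r, t) = x} j' := by omega
    have he : ∀ i, ∃ i', c (i', j') = c (i, j) := fun i => (hj' _).mpr (hcol i)
    choose e he using he
    have hinj : Function.Injective e := by
      intro a b hab
      apply col_inj hloc.1 j
      change c (a, j) = c (b, j)
      rw [← he a, ← he b, hab]
    have hc1 := card_special hH hdeg hloc.1 hx j
    have hc2 : (Finset.univ.filter fun i => e i ∈ special H c x j').card ≤ 2 := by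
      refine le_trans (Finset.card_le_card_of_injOn e ?_ (hinj.injOn))
        (card_special hH hdeg hloc.1 hx j')
      intro i hi
      simpa using hi
    obtain ⟨i, hi⟩ : ∃ i, i ∉ special H c x j ∪ Finset.univ.filter fun i => e i ∈ special H c x j' := by
      by_contra hcon
      push Not at hcon
      have h1 := Finset.card_union_le (special H c x j)
        (Finset.univ.filter fun i => e i ∈ special H c x j')
      have h2 : (Finset.univ : Finset (Fin m)) ⊆
          special H c x j ∪ Finset.univ.filter fun i => e i ∈ special H c x j' :=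
        fun i _ => hcon i
      have h3 := Finset.card_le_card h2
      rw [Finset.card_univ, Fintype.card_fin] at h3
      omega
    rw [Finset.mem_union, not_or] at hi
    apply key i (e i) (he i).symm
    rw [distTo_generic hH hx, distTo_generic hH hx, hD]
    · intro s hs hds
      apply hi.2
      rw [Finset.mem_filter, mem_special]
      exact ⟨Finset.mem_univ _, s, hs, hds⟩
    · intro s hs hds
      apply hi.1
      rw [mem_special]
      exact ⟨s, hs, hds⟩

theorem lower_two [Fintype W] (hm : 5 ≤ m) (hH : H.Connected) (hdeg : DegTwo H)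
    (hW : ∀ j : W, ∃ j', j ≠ j')
    {c : Fin m × W → Fin (m + 1)} (hloc : IsLocating ((⊤ : SimpleGraph (Fin m)) □ H) c) :
    Fintype.card W ≤ m + 1 := by
  have hm0 : 0 < m := by omega
  choose a ha using missing hloc.1
  have hones : ∀ j, ∃ i, ∀ x, c (i, j) ≠ x →
      distTo ((⊤ : SimpleGraph (Fin m)) □ H) c (i, j) x = 1 := by
    intro j
    obtain ⟨t, ht⟩ := hW j
    have hpos := hH.pos_dist_of_ne ht
    obtain ⟨D, hD⟩ : ∃ D, H.dist j t = D + 1 := ⟨H.dist j t - 1, by omega⟩
    obtain ⟨j', hj', -⟩ := first_step hH hD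
    have hne : a j ≠ a j' := by
      intro h
      rcases le_total (dto H {t | ∃ r, c (r, t) = a j} j) (dto H {t | ∃ r, c (r, t) = a j} j')
        with hle | hle
      · exact adj_missing_aux hm hH hdeg hloc hj' (ha j) (h ▸ ha j') hle
      · exact adj_missing_aux hm hH hdeg hloc hj'.symm (h ▸ ha j') (ha j) hle
    obtain ⟨r, hr⟩ := (ha j' (a j)).mpr hne
    refine ⟨r, fun x hx => ?_⟩
    by_cases hxa : x = a j
    · rw [distTo_eq_one_iff (prod_connected hm0 hH) hx]
      refine ⟨(r, j'), ?_, hr.trans hxa.symm⟩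
      rw [boxProd_adj]
      exact Or.inr ⟨hj', rfl⟩
    · exact distTo_one_of_col hm0 hH hx ((ha j x).mpr hxa)
  choose i hi using hones
  have hinj : Function.Injective fun j => c (i j, j) := by
    intro j j' h
    exact congrArg Prod.snd (all_ones_inj hloc (hi j) (hi j') h)
  have := Fintype.card_le_of_injective _ hinj
  simpa using this

end Product

/-! ### Construction of the columns -/

theorem exists_column {m : ℕ} (x0 : Fin (m + 1)) {r1 r2 r3 : Fin m} {c1 c2 c3 : Fin (m + 1)}
    (h12 : r1 ≠ r2) (h13 : r1 ≠ r3) (h23 : r2 ≠ r3) (k12 : c1 ≠ c2) (k13 : c1 ≠ c3)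
    (k23 : c2 ≠ c3) (k1 : c1 ≠ x0) (k2 : c2 ≠ x0) (k3 : c3 ≠ x0) :
    ∃ g : Fin m → Fin (m + 1), Function.Injective g ∧ (∀ i, g i ≠ x0) ∧ g r1 = c1 ∧ g r2 = c2 ∧
      g r3 = c3 := by
  classical
  obtain ⟨g, hg⟩ := Finset.exists_equiv_extend_of_card_eq (α := Fin m)
    (t := Finset.univ.erase x0) (by simp) (s := {r1, r2, r3})
    (f := fun i => if i = r1 then c1 else if i = r2 then c2 else c3) (by
      intro y hy
      simp only [Finset.mem_image, Finset.mem_insert, Finset.mem_singleton] at hy
      obtain ⟨i, hi, rfl⟩ := hy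
      simp only [Finset.mem_erase, Finset.mem_univ, and_true]
      split_ifs <;> assumption) (by
      intro a ha b hb hab
      simp only [Finset.coe_insert, Finset.coe_singleton, Set.mem_insert_iff,
        Set.mem_singleton_iff] at ha hb
      rcases ha with rfl | rfl | rfl <;> rcases hb with rfl | rfl | rfl <;>
        simp_all [h12.symm, h13.symm, h23.symm, k12.symm, k13.symm, k23.symm])
  refine ⟨fun i => g i, ?_, ?_, ?_, ?_, ?_⟩
  · intro a b hab
    exact g.injective (Subtype.ext hab)
  · intro i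
    exact Finset.ne_of_mem_erase (g i).2
  · simpa using hg r1 (by simp)
  · have := hg r2 (by simp)
    simpa [h12.symm] using this
  · have := hg r3 (by simp)
    simpa [h13.symm, h23.symm] using this

section Construction

variable {m n : ℕ} {b β : Fin (n + 2) → Fin (m + 1)} {ρ : Fin (n + 2) → Fin m}

/-- The local conditions on the skeleton of the colouring. -/
structure Good (b β : Fin (n + 2) → Fin (m + 1)) (ρ : Fin (n + 2) → Fin m) : Prop where
  r1 : ∀ j, ρ j ≠ ρ (j + 1)
  r2 : ∀ j, ρ j ≠ ρ (j + 1 + 1)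
  b1 : ∀ j, b j ≠ b (j + 1)
  b2 : ∀ j, b j ≠ b (j + 1 + 1)
  b3 : ∀ j, b j ≠ b (j + 1 + 1 + 1)
  e0 : ∀ j, β j ≠ b j
  e1 : ∀ j, β j ≠ b (j + 1)
  e2 : ∀ j, β (j + 1) ≠ b j

/-- Columns with the prescribed entries. -/
structure Sys (b β : Fin (n + 2) → Fin (m + 1)) (ρ : Fin (n + 2) → Fin m)
    (f : Fin (n + 2) → Fin m → Fin (m + 1)) : Prop where
  inj : ∀ j, Function.Injective (f j)
  miss : ∀ j i, f j i ≠ b j
  p0 : ∀ j, f j (ρ j) = β j
  p1 : ∀ j, f j (ρ (j + 1)) = b (j + 1)
  p2 : ∀ j, f (j + 1) (ρ j) = b j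

theorem exists_sys (hg : Good b β ρ) : ∃ f, Sys b β ρ f := by
  have h : ∀ j, ∃ g : Fin m → Fin (m + 1), Function.Injective g ∧ (∀ i, g i ≠ b (j + 1)) ∧
      g (ρ (j + 1)) = β (j + 1) ∧ g (ρ (j + 1 + 1)) = b (j + 1 + 1) ∧ g (ρ j) = b j := by
    intro j
    exact exists_column (b (j + 1)) (hg.r1 _) (hg.r1 _).symm (hg.r2 _).symm (hg.e1 _) (hg.e2 _)
      (hg.b2 _).symm (hg.e0 _) (hg.b1 _).symm (hg.b1 _)
  choose g h1 h2 h3 h4 h5 using h
  refine ⟨fun j => g (j - 1), ?_, ?_, ?_, ?_, ?_⟩
  · exact fun j => h1 _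
  · intro j i
    have := h2 (j - 1) i
    rwa [sub_add_cancel] at this
  · intro j
    have := h3 (j - 1)
    rwa [sub_add_cancel] at this
  · intro j
    have := h4 (j - 1)
    rwa [sub_add_cancel] at this
  · intro j
    have := h5 j
    change g (j + 1 - 1) (ρ j) = b j
    rwa [add_sub_cancel_right]

/-- The conflicts of a family of columns. -/
def conf (f : Fin (n + 2) → Fin m → Fin (m + 1)) : Finset (Fin (n + 2) × Fin m) :=
  Finset.univ.filter fun p => f p.1 p.2 = f (p.1 + 1) p.2

theorem card_fiber {α : Type*} (g : Fin m → α) [DecidableEq α] (hg : Function.Injective g) (y : α) :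
    (Finset.univ.filter fun i => g i = y).card ≤ 1 := by
  rw [Finset.card_le_one]
  intro a ha b hb
  simp only [Finset.mem_filter, Finset.mem_univ, true_and] at ha hb
  exact hg (ha.trans hb.symm)

theorem one_ne : (1 : Fin (n + 2)) ≠ 0 := by
  simp

theorem step_aux (hm : 9 ≤ m) {f : Fin (n + 2) → Fin m → Fin (m + 1)} (hf : Sys b β ρ f)
    (k : Fin (n + 2)) (i : Fin m) (h0 : i ≠ ρ k) (h1 : i ≠ ρ (k + 1)) (h2 : i ≠ ρ (k - 1))
    (hc : f (k - 1) i = f k i ∨ f k i = f (k + 1) i) :
    ∃ f', Sys b β ρ f' ∧ conf f' ⊂ conf f := by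
  classical
  obtain ⟨i', hi'⟩ : ∃ i', i' ∉ (({i, ρ k, ρ (k + 1), ρ (k - 1)} : Finset (Fin m)) ∪
      ((Finset.univ.filter fun l => f k l = f (k - 1) i) ∪
      ((Finset.univ.filter fun l => f k l = f (k + 1) i) ∪
      ((Finset.univ.filter fun l => f (k - 1) l = f k i) ∪
      (Finset.univ.filter fun l => f (k + 1) l = f k i))))) := by
    by_contra hcon
    push Not at hcon
    have h3 := Finset.card_le_card (fun (l : Fin m) (_ : l ∈ Finset.univ) => hcon l)
    rw [Finset.card_univ, Fintype.card_fin] at h3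
    have e1 := Finset.card_union_le ({i, ρ k, ρ (k + 1), ρ (k - 1)} : Finset (Fin m))
      ((Finset.univ.filter fun l => f k l = f (k - 1) i) ∪
      ((Finset.univ.filter fun l => f k l = f (k + 1) i) ∪
      ((Finset.univ.filter fun l => f (k - 1) l = f k i) ∪
      (Finset.univ.filter fun l => f (k + 1) l = f k i))))
    have e2 := Finset.card_union_le (Finset.univ.filter fun l => f k l = f (k - 1) i)
      ((Finset.univ.filter fun l => f k l = f (k + 1) i) ∪
      ((Finset.univ.filter fun l => f (k - 1) l = f k i) ∪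
      (Finset.univ.filter fun l => f (k + 1) l = f k i)))
    have e3 := Finset.card_union_le (Finset.univ.filter fun l => f k l = f (k + 1) i)
      ((Finset.univ.filter fun l => f (k - 1) l = f k i) ∪
      (Finset.univ.filter fun l => f (k + 1) l = f k i))
    have e4 := Finset.card_union_le (Finset.univ.filter fun l => f (k - 1) l = f k i)
      (Finset.univ.filter fun l => f (k + 1) l = f k i)
    have e5 : ({i, ρ k, ρ (k + 1), ρ (k - 1)} : Finset (Fin m)).card ≤ 4 := Finset.card_le_four
    have e6 := card_fiber (f k) (hf.inj k) (f (k - 1) i)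
    have e7 := card_fiber (f k) (hf.inj k) (f (k + 1) i)
    have e8 := card_fiber (f (k - 1)) (hf.inj _) (f k i)
    have e9 := card_fiber (f (k + 1)) (hf.inj _) (f k i)
    omega
  simp only [Finset.mem_union, Finset.mem_filter, Finset.mem_univ, true_and, not_or,
    Finset.mem_insert, Finset.mem_singleton] at hi'
  obtain ⟨⟨n0, n1, n2, n3⟩, n4, n5, n6, n7⟩ := hi'
  have hk1 : k + 1 ≠ k := by
    intro h
    exact one_ne (add_eq_left.mp h)
  have hk2 : k - 1 ≠ k := by
    intro h
    exact one_ne (sub_eq_self.mp h)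
  have hsw : ∀ l, l ≠ i → l ≠ i' → Equiv.swap i i' l = l := fun l hl hl' =>
    Equiv.swap_apply_of_ne_of_ne hl hl'
  refine ⟨Function.update f k fun l => f k (Equiv.swap i i' l), ⟨?_, ?_, ?_, ?_, ?_⟩, ?_⟩
  · intro j
    by_cases hj : j = k
    · subst hj
      rw [Function.update_self]
      exact (hf.inj j).comp (Equiv.swap i i').injective
    · rw [Function.update_of_ne hj]
      exact hf.inj j
  · intro j l
    by_cases hj : j = k
    · subst hj
      rw [Function.update_self]
      exact hf.miss j _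
    · rw [Function.update_of_ne hj]
      exact hf.miss j l
  · intro j
    by_cases hj : j = k
    · subst hj
      rw [Function.update_self, hsw _ h0.symm (Ne.symm n1)]
      exact hf.p0 j
    · rw [Function.update_of_ne hj]
      exact hf.p0 j
  · intro j
    by_cases hj : j = k
    · subst hj
      rw [Function.update_self, hsw _ h1.symm (Ne.symm n2)]
      exact hf.p1 j
    · rw [Function.update_of_ne hj]
      exact hf.p1 j
  · intro j
    by_cases hj : j + 1 = k
    · have hj' : j = k - 1 := by rw [← hj, add_sub_cancel_right]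
      rw [hj, Function.update_self]
      rw [hsw _ (by rw [hj']; exact h2.symm) (by rw [hj']; exact Ne.symm n3)]
      rw [← hj]
      exact hf.p2 j
    · rw [Function.update_of_ne hj]
      exact hf.p2 j
  · have hsub : ∀ p : Fin (n + 2) × Fin m,
        p ∈ conf (Function.update f k fun l => f k (Equiv.swap i i' l)) →
        p ∈ conf f ∧ p ≠ (k, i) ∧ p ≠ (k - 1, i) := by
      rintro ⟨j, l⟩ hp
      simp only [conf, Finset.mem_filter, Finset.mem_univ, true_and] at hp ⊢
      by_cases hj : j = k
      · subst hj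
        rw [Function.update_self, Function.update_of_ne hk1] at hp
        have hli : l ≠ i := by
          rintro rfl
          rw [Equiv.swap_apply_left] at hp
          exact n5 hp
        have hli' : l ≠ i' := by
          rintro rfl
          rw [Equiv.swap_apply_right] at hp
          exact n7 hp.symm
        rw [hsw l hli hli'] at hp
        refine ⟨hp, fun h => hli (congrArg Prod.snd h), fun h => hli (congrArg Prod.snd h)⟩
      · by_cases hj1 : j + 1 = k
        · have hj' : j = k - 1 := by rw [← hj1, add_sub_cancel_right]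
          rw [hj1, Function.update_self, Function.update_of_ne hj] at hp
          have hli : l ≠ i := by
            rintro rfl
            rw [Equiv.swap_apply_left, hj'] at hp
            exact n4 hp.symm
          have hli' : l ≠ i' := by
            rintro rfl
            rw [Equiv.swap_apply_right, hj'] at hp
            exact n6 hp
          rw [hsw l hli hli'] at hp
          refine ⟨by rw [hj1]; exact hp, fun h => hli (congrArg Prod.snd h),
            fun h => hli (congrArg Prod.snd h)⟩
        · rw [Function.update_of_ne hj, Function.update_of_ne hj1] at hp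
          refine ⟨hp, fun h => hj (congrArg Prod.fst h), fun h => hj1 ?_⟩
          have h' : j = k - 1 := congrArg Prod.fst h
          rw [h', sub_add_cancel]
    refine ⟨fun p hp => (hsub p hp).1, fun hsup => ?_⟩
    rcases hc with hc | hc
    · have : (k - 1, i) ∈ conf f := by
        simp only [conf, Finset.mem_filter, Finset.mem_univ, true_and, sub_add_cancel]
        exact hc
      exact (hsub _ (hsup this)).2.2 rfl
    · have : (k, i) ∈ conf f := by
        simp only [conf, Finset.mem_filter, Finset.mem_univ, true_and]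
        exact hc
      exact (hsub _ (hsup this)).2.1 rfl

theorem step (hm : 9 ≤ m) (hg : Good b β ρ) {f : Fin (n + 2) → Fin m → Fin (m + 1)}
    (hf : Sys b β ρ f) (hne : (conf f).Nonempty) : ∃ f', Sys b β ρ f' ∧ conf f' ⊂ conf f := by
  obtain ⟨⟨j, i⟩, hp⟩ := hne
  simp only [conf, Finset.mem_filter, Finset.mem_univ, true_and] at hp
  by_cases h0 : i = ρ j
  · subst h0
    rw [hf.p0, hf.p2] at hp
    exact absurd hp (hg.e0 j)
  by_cases h1 : i = ρ (j + 1)
  · subst h1
    rw [hf.p0, hf.p1] at hp
    exact absurd hp.symm (hg.e0 (j + 1))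
  by_cases h2 : i = ρ (j - 1)
  · by_cases h3 : i = ρ (j + 1 + 1)
    · exfalso
      have e1 : f j i = b (j - 1) := by
        have := hf.p2 (j - 1)
        rw [sub_add_cancel] at this
        rw [h2]
        exact this
      have e2 : f (j + 1) i = b (j + 1 + 1) := by
        rw [h3]
        exact hf.p1 (j + 1)
      have e3 := hg.b3 (j - 1)
      rw [sub_add_cancel] at e3
      apply e3
      rw [← e1, ← e2]
      exact hp
    · refine step_aux hm hf (j + 1) i h1 h3 ?_ (Or.inl ?_)
      · rw [add_sub_cancel_right]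
        exact h0
      · rw [add_sub_cancel_right]
        exact hp
  · exact step_aux hm hf j i h0 h1 h2 (Or.inr hp)

theorem exists_proper (hm : 9 ≤ m) (hg : Good b β ρ) :
    ∃ f, Sys b β ρ f ∧ ∀ j i, f j i ≠ f (j + 1) i := by
  have key : ∀ N : ℕ, ∀ f, Sys b β ρ f → (conf f).card ≤ N → ∃ f', Sys b β ρ f' ∧ conf f' = ∅ := by
    intro N
    induction N with
    | zero =>
      intro f hf hc
      exact ⟨f, hf, Finset.card_eq_zero.mp (by omega)⟩
    | succ N ih =>
      intro f hf hc
      rcases (conf f).eq_empty_or_nonempty with h | h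
      · exact ⟨f, hf, h⟩
      · obtain ⟨f', hf', hlt⟩ := step hm hg hf h
        have := Finset.card_lt_card hlt
        exact ih f' hf' (by omega)
  obtain ⟨f, hf⟩ := exists_sys hg
  obtain ⟨f', hf', he⟩ := key _ f hf le_rfl
  refine ⟨f', hf', fun j i h => ?_⟩
  have : (j, i) ∈ conf f' := by
    simp only [conf, Finset.mem_filter, Finset.mem_univ, true_and]
    exact h
  rw [he] at this
  simp at this

theorem col_surj {f : Fin (n + 2) → Fin m → Fin (m + 1)} (hf : Sys b β ρ f) {j : Fin (n + 2)}
    {x : Fin (m + 1)} (hx : x ≠ b j) : ∃ i, f j i = x := by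
  have hinj : Function.Injective fun i => (⟨f j i, hf.miss j i⟩ : {y : Fin (m + 1) // y ≠ b j}) := by
    intro a c hac
    exact hf.inj j (congrArg Subtype.val hac)
  have hcard : Fintype.card (Fin m) = Fintype.card {y : Fin (m + 1) // y ≠ b j} := by
    simp
  obtain ⟨i, hi⟩ := ((Fintype.bijective_iff_injective_and_card _).mpr ⟨hinj, hcard⟩).2 ⟨x, hx⟩
  exact ⟨i, congrArg Subtype.val hi⟩

end Construction

/-! ### The colourings are locating -/

theorem distTo_eq_zero {V : Type*} {k : ℕ} {G : SimpleGraph V} (hG : G.Connected) {c : V → Fin k}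
    {v : V} {x : Fin k} (hx : ∃ s, c s = x) (h : distTo G c v x = 0) : c v = x := by
  obtain ⟨s0, h0⟩ := hx
  obtain ⟨s, hs, hd⟩ := exists_dto (G := G) (S := {s | c s = x}) ⟨s0, h0⟩ v
  rw [← distTo_eq_dto, h] at hd
  rw [(hG.dist_eq_zero_iff).mp hd]
  exact hs

theorem same_colour {V : Type*} {k : ℕ} {G : SimpleGraph V} (hG : G.Connected) {c : V → Fin k}
    {u v : V} (h : ∀ x, distTo G c u x = distTo G c v x) : c u = c v := by
  have h1 := h (c u)
  rw [distTo_self] at h1
  exact (distTo_eq_zero hG ⟨u, rfl⟩ h1.symm).symm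

theorem distTo_unique {V : Type*} {k : ℕ} {G : SimpleGraph V} {c : V → Fin k} {x : Fin k} {s : V}
    (hs : ∀ t, c t = x ↔ t = s) (v : V) : distTo G c v x = G.dist v s := by
  obtain ⟨t, ht, hd⟩ := exists_dto (G := G) (S := {s | c s = x}) ⟨s, (hs s).mpr rfl⟩ v
  rw [(hs t).mp ht] at hd
  rw [distTo_eq_dto, hd]

section Colourings

variable {m n : ℕ} {b β : Fin (n + 2) → Fin (m + 1)} {ρ : Fin (n + 2) → Fin m}
  {f : Fin (n + 2) → Fin m → Fin (m + 1)} {H : SimpleGraph (Fin (n + 2))}

theorem no_nb (hf : Sys b β ρ f) (hcyc : ∀ u v, H.Adj u v → v = u + 1 ∨ u = v + 1) {i : Fin m}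
    {j : Fin (n + 2)} (hi : i ≠ ρ j) (w : Fin m × Fin (n + 2))
    (hw : ((⊤ : SimpleGraph (Fin m)) □ H).Adj (i, j) w) : f w.2 w.1 ≠ b j := by
  rw [boxProd_adj] at hw
  rcases hw with ⟨-, h⟩ | ⟨h, h'⟩
  · simp only at h
    rw [← h]
    exact hf.miss j _
  · simp only at h h'
    rw [← h']
    intro he
    apply hi
    rcases hcyc _ _ h with h2 | h2
    · rw [h2, ← hf.p2 j] at he
      exact hf.inj _ he
    · rw [h2, ← hf.p1 w.2] at he
      rw [h2]
      exact hf.inj _ he

theorem proper_base (hf : Sys b β ρ f) (hp : ∀ j i, f j i ≠ f (j + 1) i)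
    (hcyc : ∀ u v, H.Adj u v → v = u + 1 ∨ u = v + 1) (u v : Fin m × Fin (n + 2))
    (h : ((⊤ : SimpleGraph (Fin m)) □ H).Adj u v) : f u.2 u.1 ≠ f v.2 v.1 := by
  rw [boxProd_adj] at h
  rcases h with ⟨h, h'⟩ | ⟨h, h'⟩
  · rw [← h']
    exact fun he => h (hf.inj _ he)
  · rw [← h']
    rcases hcyc _ _ h with h2 | h2
    · rw [h2]
      exact hp _ _
    · rw [h2]
      exact (hp _ _).symm

theorem locating_A (hm : 0 < m) (hH : H.Connected) (hf : Sys b β ρ f)
    (hp : ∀ j i, f j i ≠ f (j + 1) i) (hcyc : ∀ u v, H.Adj u v → v = u + 1 ∨ u = v + 1)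
    (hb : Function.Injective b) (hβ : Function.Injective β) :
    IsLocating ((⊤ : SimpleGraph (Fin m)) □ H) (fun p : Fin m × Fin (n + 2) => f p.2 p.1) := by
  have hG := prod_connected hm hH
  refine ⟨proper_base hf hp hcyc, ?_, ?_⟩
  · intro x
    by_cases hx : x = b 0
    · obtain ⟨i, hi⟩ := col_surj hf (j := 1) (x := x) (by
        rw [hx]
        intro h
        exact one_ne (hb h).symm)
      exact ⟨(i, 1), hi⟩
    · obtain ⟨i, hi⟩ := col_surj hf hx
      exact ⟨(i, 0), hi⟩
  · have sep : ∀ i j i' j', i ≠ ρ j → j ≠ j' → f j i = f j' i' →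
        distTo ((⊤ : SimpleGraph (Fin m)) □ H) (fun p : Fin m × Fin (n + 2) => f p.2 p.1) (i, j) (b j)
        ≠ distTo ((⊤ : SimpleGraph (Fin m)) □ H) (fun p : Fin m × Fin (n + 2) => f p.2 p.1)
          (i', j') (b j) := by
      intro i j i' j' hi hj he
      have h1 : distTo ((⊤ : SimpleGraph (Fin m)) □ H)
          (fun p : Fin m × Fin (n + 2) => f p.2 p.1) (i', j') (b j) = 1 := by
        apply distTo_one_of_col hm hH
        · change f j' i' ≠ b j
          rw [← he]
          exact hf.miss j i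
        · exact col_surj hf (fun h => hj (hb h))
      rw [h1]
      intro h2
      rw [distTo_eq_one_iff hG (by exact hf.miss j i)] at h2
      obtain ⟨w, hw, hw'⟩ := h2
      exact no_nb hf hcyc hi w hw hw'
    rintro ⟨i, j⟩ ⟨i', j'⟩ h
    have hcol : f j i = f j' i' := same_colour hG h
    by_cases hj : j = j'
    · subst hj
      rw [hf.inj _ hcol]
    · exfalso
      by_cases hi : i = ρ j
      · have hi' : i' ≠ ρ j' := by
          rintro rfl
          rw [hi, hf.p0, hf.p0] at hcol
          exact hj (hβ hcol)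
        exact sep i' j' i j hi' (Ne.symm hj) hcol.symm (h _).symm
      · exact sep i j i' j' hi hj hcol (h _)

theorem locating_B (hm : 0 < m) (hH : H.Connected) (hg : Good b β ρ) (hf : Sys b β ρ f)
    (hp : ∀ j i, f j i ≠ f (j + 1) i) (hcyc : ∀ u v, H.Adj u v → v = u + 1 ∨ u = v + 1)
    (h20 : (0 : Fin (n + 2)) + 1 + 1 ≠ 0)
    (hclose : ∀ j j', j ≠ j' → H.dist j 0 ≤ H.dist j' 0 + 1 → H.dist j' 0 ≤ H.dist j 0 + 1 →
      b j ≠ b j' ∧ β j ≠ β j')
    (hβb : ∀ j, β 0 ≠ b j) :
    IsLocating ((⊤ : SimpleGraph (Fin m)) □ H)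
      (fun p : Fin m × Fin (n + 2) => if p = (ρ 0, 0) then Fin.last (m + 1)
        else (f p.2 p.1).castSucc) := by
  have hG := prod_connected hm hH
  set c : Fin m × Fin (n + 2) → Fin (m + 2) := fun p => if p = (ρ 0, 0) then Fin.last (m + 1)
        else (f p.2 p.1).castSucc with hc
  have hc1 : c (ρ 0, 0) = Fin.last (m + 1) := by simp [hc]
  have hc2 : ∀ p, p ≠ (ρ 0, 0) → c p = (f p.2 p.1).castSucc := fun p hp => by simp [hc, hp]
  have hc3 : ∀ p, c p = Fin.last (m + 1) ↔ p = (ρ 0, 0) := by
    intro p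
    constructor
    · intro h
      by_contra hne
      rw [hc2 p hne] at h
      exact (Fin.castSucc_lt_last _).ne h
    · rintro rfl
      exact hc1
  refine ⟨?_, ?_, ?_⟩
  · intro u v huv h
    by_cases hu : u = (ρ 0, 0)
    · rw [hu, hc1] at h
      have := (hc3 v).mp h.symm
      rw [this, hu] at huv
      exact huv.ne rfl
    · by_cases hv : v = (ρ 0, 0)
      · rw [hv, hc1] at h
        exact hu ((hc3 u).mp h)
      · rw [hc2 u hu, hc2 v hv] at h
        exact proper_base hf hp hcyc u v huv (Fin.castSucc_injective _ h)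
  · intro x
    rcases Fin.eq_castSucc_or_eq_last x with ⟨y, rfl⟩ | rfl
    · have h1 : (0 : Fin (n + 2)) + 1 ≠ 0 := by rw [zero_add]; exact one_ne
      have : ∃ j : Fin (n + 2), j ≠ 0 ∧ y ≠ b j := by
        by_cases hy : y = b (0 + 1)
        · exact ⟨0 + 1 + 1, h20, hy ▸ hg.b1 _⟩
        · exact ⟨0 + 1, h1, hy⟩
      obtain ⟨j, hj, hy⟩ := this
      obtain ⟨i, hi⟩ := col_surj hf hy
      refine ⟨(i, j), ?_⟩
      rw [hc2 _ (fun h => hj (congrArg Prod.snd h))]
      exact congrArg Fin.castSucc hi
    · exact ⟨_, hc1⟩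
  · have sep : ∀ i j i' j', i ≠ ρ j → b j ≠ b j' → (i, j) ≠ (ρ 0, 0) → (i', j') ≠ (ρ 0, 0) →
        f j i = f j' i' → distTo ((⊤ : SimpleGraph (Fin m)) □ H) c (i, j) (b j).castSucc
        ≠ distTo ((⊤ : SimpleGraph (Fin m)) □ H) c (i', j') (b j).castSucc := by
      intro i j i' j' hi hj hu hv he
      have h1 : distTo ((⊤ : SimpleGraph (Fin m)) □ H) c (i', j') (b j).castSucc = 1 := by
        apply distTo_one_of_col hm hH
        · rw [hc2 _ hv]
          intro h
          have h' := Fin.castSucc_injective _ h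
          simp only at h'
          rw [← he] at h'
          exact hf.miss j i h'
        · obtain ⟨i'', hi''⟩ := col_surj hf hj
          refine ⟨i'', ?_⟩
          rw [hc2]
          · exact congrArg Fin.castSucc hi''
          · intro h
            have e1 : i'' = ρ 0 := congrArg Prod.fst h
            have e2 : j' = 0 := congrArg Prod.snd h
            rw [e1, e2, hf.p0] at hi''
            exact hβb j hi''
      rw [h1]
      intro h2
      have hne : c (i, j) ≠ (b j).castSucc := by
        rw [hc2 _ hu]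
        exact fun h => hf.miss j i (Fin.castSucc_injective _ h)
      rw [distTo_eq_one_iff hG hne] at h2
      obtain ⟨w, hw, hw'⟩ := h2
      by_cases hws : w = (ρ 0, 0)
      · rw [hws, hc1] at hw'
        exact (Fin.castSucc_lt_last _).ne hw'.symm
      · rw [hc2 _ hws] at hw'
        exact no_nb hf hcyc hi w hw (Fin.castSucc_injective _ hw')
    rintro ⟨i, j⟩ ⟨i', j'⟩ h
    have hcol : c (i, j) = c (i', j') := same_colour hG h
    by_cases hu : (i, j) = (ρ 0, 0)
    · rw [hu, hc1] at hcol
      rw [hu, (hc3 _).mp hcol.symm]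
    · by_cases hv : (i', j') = (ρ 0, 0)
      · rw [hv, hc1] at hcol
        exact absurd ((hc3 _).mp hcol) hu
      · have hfe : f j i = f j' i' := by
          rw [hc2 _ hu, hc2 _ hv] at hcol
          exact Fin.castSucc_injective _ hcol
        by_cases hj : j = j'
        · subst hj
          rw [hf.inj _ hfe]
        · exfalso
          have hd := h (Fin.last (m + 1))
          rw [distTo_unique hc3, distTo_unique hc3, dist_prod hH, dist_prod hH] at hd
          simp only at hd
          have h1 : (if i = ρ 0 then 0 else 1) ≤ 1 := by split_ifs <;> omega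
          have h2 : (if i' = ρ 0 then 0 else 1) ≤ 1 := by split_ifs <;> omega
          obtain ⟨hb, hβ⟩ := hclose j j' hj (by omega) (by omega)
          by_cases hi : i = ρ j
          · have hi' : i' ≠ ρ j' := by
              rintro rfl
              rw [hi, hf.p0, hf.p0] at hfe
              exact hβ hfe
            exact sep i' j' i j hi' hb.symm hv hu hfe.symm (h _).symm
          · exact sep i j i' j' hi hb hu hv hfe (h _)

end Colourings

/-! ### Paths and cycles -/

theorem val_succ {n : ℕ} (j : Fin (n + 2)) :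
    (j + 1).val = j.val + 1 ∨ (j.val = n + 1 ∧ (j + 1).val = 0) := by
  have h := Fin.val_add j 1
  have h1 : ((1 : Fin (n + 2)) : ℕ) = 1 := rfl
  rw [h1] at h
  have hj := j.isLt
  by_cases hlt : j.val + 1 < n + 2
  · left
    rw [h, Nat.mod_eq_of_lt hlt]
  · right
    have : j.val + 1 = n + 2 := by omega
    rw [h, this, Nat.mod_self]
    omega

theorem cycle_cyc {n : ℕ} (u v : Fin (n + 2)) (h : (cycleGraph (n + 2)).Adj u v) :
    v = u + 1 ∨ u = v + 1 := by
  rw [cycleGraph_adj] at h
  rcases h with h | h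
  · right
    rw [← h]
    abel
  · left
    rw [← h]
    abel

theorem path_cyc {n : ℕ} (u v : Fin (n + 2)) (h : (pathGraph (n + 2)).Adj u v) :
    v = u + 1 ∨ u = v + 1 := cycle_cyc u v (pathGraph_le_cycleGraph h)

theorem degTwo_of_cyc {n : ℕ} {H : SimpleGraph (Fin (n + 2))}
    (hcyc : ∀ u v, H.Adj u v → v = u + 1 ∨ u = v + 1) : DegTwo H := by
  intro j a b c ha hb hc
  rcases hcyc _ _ ha with h1 | h1 <;> rcases hcyc _ _ hb with h2 | h2 <;>
    rcases hcyc _ _ hc with h3 | h3
  · exact Or.inl (h1.trans h2.symm)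
  · exact Or.inl (h1.trans h2.symm)
  · exact Or.inr (Or.inl (h1.trans h3.symm))
  · exact Or.inr (Or.inr (add_right_cancel (h2.symm.trans h3)))
  · exact Or.inr (Or.inr (h2.trans h3.symm))
  · exact Or.inr (Or.inl (add_right_cancel (h1.symm.trans h3)))
  · exact Or.inl (add_right_cancel (h1.symm.trans h2))
  · exact Or.inl (add_right_cancel (h1.symm.trans h2))

theorem lipschitz {V : Type*} {G : SimpleGraph V} (hG : G.Connected) (φ : V → ℕ)
    (h : ∀ u v, G.Adj u v → φ u ≤ φ v + 1) (u v : V) : φ u ≤ φ v + G.dist u v := by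
  obtain ⟨p, hp⟩ := hG.exists_walk_length_eq_dist u v
  rw [← hp]
  clear hp
  induction p with
  | nil => simp
  | cons hw q ih =>
    rw [Walk.length_cons]
    have := h _ _ hw
    omega

theorem path_dist {n : ℕ} (j : Fin (n + 2)) : (pathGraph (n + 2)).dist j 0 = j.val := by
  have hG : (pathGraph (n + 2)).Connected := pathGraph_connected (n + 1)
  apply le_antisymm
  · have key : ∀ t : ℕ, ∀ j : Fin (n + 2), j.val = t → (pathGraph (n + 2)).dist j 0 ≤ t := by
      intro t
      induction t with
      | zero =>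
        intro j hj
        have : j = 0 := Fin.ext hj
        rw [this, dist_self]
      | succ t ih =>
        intro j hj
        have hlt : t < n + 2 := by have := j.isLt; omega
        have h1 := ih ⟨t, hlt⟩ rfl
        have h2 : (pathGraph (n + 2)).Adj j ⟨t, hlt⟩ := by
          rw [pathGraph_adj]
          right
          change t + 1 = j.val
          omega
        have h3 := hG.dist_triangle (u := j) (v := ⟨t, hlt⟩) (w := 0)
        rw [dist_eq_one_iff_adj.mpr h2] at h3
        omega
    exact key _ j rfl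
  · have := lipschitz hG (fun j : Fin (n + 2) => j.val) (by
      intro u v huv
      rw [pathGraph_adj] at huv
      omega) j 0
    simp only [Fin.val_zero] at this
    omega

theorem cycle_dist {n : ℕ} (j : Fin (n + 2)) :
    (cycleGraph (n + 2)).dist j 0 = min j.val (n + 2 - j.val) := by
  have hG : (cycleGraph (n + 2)).Connected := cycleGraph_connected
  have hlt := j.isLt
  apply le_antisymm
  · rw [le_min_iff]
    constructor
    · rw [← path_dist j]
      exact Reachable.dist_anti pathGraph_le_cycleGraph ((pathGraph_preconnected _) j 0)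
    · have key : ∀ t : ℕ, ∀ j : Fin (n + 2), j.val + (t + 1) = n + 2 →
          (cycleGraph (n + 2)).dist j 0 ≤ t + 1 := by
        intro t
        induction t with
        | zero =>
          intro j hj
          have h2 : (cycleGraph (n + 2)).Adj j 0 := by
            rw [cycleGraph_adj]
            right
            rw [zero_sub, neg_eq_iff_add_eq_zero]
            rcases val_succ j with h | h
            · have := (j + 1).isLt
              omega
            · exact Fin.ext h.2
          rw [dist_eq_one_iff_adj.mpr h2]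
        | succ t ih =>
          intro j hj
          have hj' : (j + 1).val = j.val + 1 := by
            rcases val_succ j with h | h
            · exact h
            · omega
          have h1 := ih (j + 1) (by omega)
          have h2 : (cycleGraph (n + 2)).Adj j (j + 1) := by
            rw [cycleGraph_adj]
            right
            abel
          have h3 := hG.dist_triangle (u := j) (v := j + 1) (w := 0)
          rw [dist_eq_one_iff_adj.mpr h2] at h3
          omega
      have := key (n + 1 - j.val) j (by omega)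
      omega
  · have := lipschitz hG (fun j : Fin (n + 2) => min j.val (n + 2 - j.val)) (by
      intro u v huv
      have hu := u.isLt
      have hv := v.isLt
      rcases cycle_cyc u v huv with h | h
      · rcases val_succ u with h' | h'
        · rw [← h] at h'
          omega
        · rw [← h] at h'
          omega
      · rcases val_succ v with h' | h'
        · rw [← h] at h'
          omega
        · rw [← h] at h'
          omega) j 0
    simp only [Fin.val_zero] at this
    omega

/-! ### The skeletons -/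

/-- The periodic skeleton used for long paths and cycles. -/
def tau (N j : ℕ) : ℕ := if 2 * j ≤ N then j % 4 else 4 + (N - j) % 4

theorem tau_lt (N j : ℕ) : tau N j < 8 := by
  unfold tau
  split_ifs <;> omega

theorem tau_close {N j j' : ℕ} (hj : j < N) (hj' : j' < N) (hne : j ≠ j')
    (h1 : min j (N - j) ≤ min j' (N - j') + 1) (h2 : min j' (N - j') ≤ min j (N - j) + 1) :
    tau N j ≠ tau N j' := by
  unfold tau
  split_ifs <;> omega

theorem good_B {m n : ℕ} (hm : 16 ≤ m) (hn : 16 ≤ n + 2) :
    Good (fun j : Fin (n + 2) => (⟨tau (n + 2) j.val, by have := tau_lt (n + 2) j.val; omega⟩ : Fin (m + 1)))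
      (fun j => ⟨8 + tau (n + 2) j.val, by have := tau_lt (n + 2) j.val; omega⟩)
      (fun j => ⟨tau (n + 2) j.val, by have := tau_lt (n + 2) j.val; omega⟩) := by
  have t1 : ∀ j : Fin (n + 2), tau (n + 2) j.val ≠ tau (n + 2) (j + 1).val := by
    intro j
    have := j.isLt
    unfold tau
    rcases val_succ j with h | h <;> split_ifs <;> omega
  have t2 : ∀ j : Fin (n + 2), tau (n + 2) j.val ≠ tau (n + 2) (j + 1 + 1).val := by
    intro j
    have := j.isLt
    unfold tau
    rcases val_succ j with h | h <;> rcases val_succ (j + 1) with h' | h' <;> split_ifs <;> omega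
  have t3 : ∀ j : Fin (n + 2), tau (n + 2) j.val ≠ tau (n + 2) (j + 1 + 1 + 1).val := by
    intro j
    have := j.isLt
    unfold tau
    rcases val_succ j with h | h <;> rcases val_succ (j + 1) with h' | h' <;>
      rcases val_succ (j + 1 + 1) with h'' | h'' <;> split_ifs <;> omega
  refine ⟨?_, ?_, ?_, ?_, ?_, ?_, ?_, ?_⟩
  · exact fun j h => t1 j (congrArg Fin.val h)
  · exact fun j h => t2 j (congrArg Fin.val h)
  · exact fun j h => t1 j (congrArg Fin.val h)
  · exact fun j h => t2 j (congrArg Fin.val h)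
  · exact fun j h => t3 j (congrArg Fin.val h)
  · intro j h
    have h' := congrArg Fin.val h
    have := tau_lt (n + 2) j.val
    simp only at h'
    omega
  · intro j h
    have h' := congrArg Fin.val h
    have := tau_lt (n + 2) (j + 1).val
    simp only at h'
    omega
  · intro j h
    have h' := congrArg Fin.val h
    have := tau_lt (n + 2) j.val
    simp only at h'
    omega

theorem good_A {m n : ℕ} (hm : 16 ≤ m) (hn : 16 ≤ n + 2) (hle : n + 2 ≤ m + 1) :
    Good (fun j : Fin (n + 2) => (⟨j.val, by have := j.isLt; omega⟩ : Fin (m + 1)))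
      (fun j => ⟨(j + 1 + 1).val, by have := (j + 1 + 1).isLt; omega⟩)
      (fun j => ⟨if j.val < m then j.val else 5, by split_ifs <;> omega⟩) := by
  have v1 : ∀ j : Fin (n + 2), j.val ≠ (j + 1).val := by
    intro j
    rcases val_succ j with h | h <;> omega
  have v2 : ∀ j : Fin (n + 2), j.val ≠ (j + 1 + 1).val := by
    intro j
    rcases val_succ j with h | h <;> rcases val_succ (j + 1) with h' | h' <;> omega
  have v3 : ∀ j : Fin (n + 2), j.val ≠ (j + 1 + 1 + 1).val := by
    intro j
    rcases val_succ j with h | h <;> rcases val_succ (j + 1) with h' | h' <;>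
      rcases val_succ (j + 1 + 1) with h'' | h'' <;> omega
  refine ⟨?_, ?_, ?_, ?_, ?_, ?_, ?_, ?_⟩
  · intro j h
    have h' : (if j.val < m then j.val else 5) = (if (j + 1).val < m then (j + 1).val else 5) :=
      congrArg Fin.val h
    have := j.isLt
    have := (j + 1).isLt
    rcases val_succ j with h1 | h1 <;> split_ifs at h' <;> omega
  · intro j h
    have h' : (if j.val < m then j.val else 5)
        = (if (j + 1 + 1).val < m then (j + 1 + 1).val else 5) :=
      congrArg Fin.val h
    have := j.isLt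
    have := (j + 1).isLt
    have := (j + 1 + 1).isLt
    rcases val_succ j with h1 | h1 <;> rcases val_succ (j + 1) with h2 | h2 <;>
      split_ifs at h' <;> omega
  · intro j h
    have h' : j.val = (j + 1).val := by injection h
    exact v1 j h'
  · intro j h
    have h' : j.val = (j + 1 + 1).val := by injection h
    exact v2 j h'
  · intro j h
    have h' : j.val = (j + 1 + 1 + 1).val := by injection h
    exact v3 j h'
  · intro j h
    have h' : (j + 1 + 1).val = j.val := by injection h
    exact v2 j h'.symm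
  · intro j h
    have h' : (j + 1 + 1).val = (j + 1).val := by injection h
    exact v1 (j + 1) h'.symm
  · intro j h
    have h' : (j + 1 + 1 + 1).val = j.val := by injection h
    exact v3 j h'.symm

/-! ### The values -/

theorem upper_A {m n : ℕ} (hm : 16 ≤ m) (hn : 16 ≤ n + 2) (hle : n + 2 ≤ m + 1)
    {H : SimpleGraph (Fin (n + 2))} (hH : H.Connected)
    (hcyc : ∀ u v, H.Adj u v → v = u + 1 ∨ u = v + 1) :
    ∃ c : Fin m × Fin (n + 2) → Fin (m + 1), IsLocating ((⊤ : SimpleGraph (Fin m)) □ H) c := by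
  obtain ⟨f, hf, hp⟩ := exists_proper (by omega) (good_A hm hn hle)
  refine ⟨_, locating_A (by omega) hH hf hp hcyc ?_ ?_⟩
  · intro a c h
    have h' : a.val = c.val := by injection h
    exact Fin.ext h'
  · intro a c h
    have h1 : (a + 1 + 1).val = (c + 1 + 1).val := by injection h
    have h' : a + 1 + 1 = c + 1 + 1 := Fin.ext h1
    exact add_right_cancel (add_right_cancel h')

theorem upper_B {m n : ℕ} (hm : 16 ≤ m) (hn : 16 ≤ n + 2)
    {H : SimpleGraph (Fin (n + 2))} (hH : H.Connected)
    (hcyc : ∀ u v, H.Adj u v → v = u + 1 ∨ u = v + 1)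
    (hclose : ∀ j j' : Fin (n + 2), j ≠ j' → H.dist j 0 ≤ H.dist j' 0 + 1 →
      H.dist j' 0 ≤ H.dist j 0 + 1 → min j.val (n + 2 - j.val) ≤ min j'.val (n + 2 - j'.val) + 1 ∧
        min j'.val (n + 2 - j'.val) ≤ min j.val (n + 2 - j.val) + 1) :
    ∃ c : Fin m × Fin (n + 2) → Fin (m + 2), IsLocating ((⊤ : SimpleGraph (Fin m)) □ H) c := by
  obtain ⟨f, hf, hp⟩ := exists_proper (by omega) (good_B hm hn)
  refine ⟨_, locating_B (by omega) hH (good_B hm hn) hf hp hcyc ?_ ?_ ?_⟩
  · intro h
    have h' := congrArg Fin.val h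
    rcases val_succ (0 : Fin (n + 2)) with h1 | h1 <;>
      rcases val_succ (0 + 1 : Fin (n + 2)) with h2 | h2 <;>
      simp only [Fin.val_zero] at h1 h' <;> omega
  · intro j j' hj h1 h2
    obtain ⟨h3, h4⟩ := hclose j j' hj h1 h2
    have h5 := tau_close j.isLt j'.isLt (fun h => hj (Fin.ext h)) h3 h4
    constructor
    · exact fun h => h5 (congrArg Fin.val h)
    · intro h
      have h' := congrArg Fin.val h
      simp only at h'
      omega
  · intro j h
    have h' := congrArg Fin.val h
    have := tau_lt (n + 2) j.val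
    simp only at h'
    omega

theorem value {m n : ℕ} (hm : 16 ≤ m) (hn : 16 ≤ n + 2)
    {H : SimpleGraph (Fin (n + 2))} (hH : H.Connected)
    (hcyc : ∀ u v, H.Adj u v → v = u + 1 ∨ u = v + 1)
    (hclose : ∀ j j' : Fin (n + 2), j ≠ j' → H.dist j 0 ≤ H.dist j' 0 + 1 →
      H.dist j' 0 ≤ H.dist j 0 + 1 → min j.val (n + 2 - j.val) ≤ min j'.val (n + 2 - j'.val) + 1 ∧
        min j'.val (n + 2 - j'.val) ≤ min j.val (n + 2 - j.val) + 1) :
    locChrom ((⊤ : SimpleGraph (Fin m)) □ H) = if n + 2 ≤ m + 1 then m + 1 else m + 2 := by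
  have hlow : ∀ k, (∃ c : Fin m × Fin (n + 2) → Fin k,
      IsLocating ((⊤ : SimpleGraph (Fin m)) □ H) c) → m + 1 ≤ k := by
    rintro k ⟨c, hc⟩
    exact lower_one (by omega) hH (one_ne (n := n)) hc
  split_ifs with h
  · have hu := upper_A hm hn h hH hcyc
    exact le_antisymm (Nat.sInf_le hu) (le_csInf ⟨_, hu⟩ fun k hk => hlow k hk)
  · have hu := upper_B hm hn hH hcyc hclose
    refine le_antisymm (Nat.sInf_le hu) (le_csInf ⟨_, hu⟩ fun k hk => ?_)
    have h1 := hlow k hk
    by_contra hlt
    have hk' : k = m + 1 := by omega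
    subst hk'
    obtain ⟨c, hc⟩ := hk
    have h2 := lower_two (by omega) hH (degTwo_of_cyc hcyc) (fun j => ⟨j + 1, fun hj =>
      one_ne (left_eq_add.mp hj)⟩) hc
    rw [Fintype.card_fin] at h2
    exact h h2

/-- For all `m, n ≥ 16` the locating chromatic numbers of `K_m □ C_n` and `K_m □ P_n` are both
equal to `m + 1` if `n ≤ m + 1` and to `m + 2` if `n ≥ m + 2`; in particular they are equal. -/
theorem result (m n : ℕ) (hm : 16 ≤ m) (hn : 16 ≤ n) :
    locChrom ((⊤ : SimpleGraph (Fin m)) □ cycleGraph n) = (if n ≤ m + 1 then m + 1 else m + 2) ∧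
    locChrom ((⊤ : SimpleGraph (Fin m)) □ pathGraph n) = (if n ≤ m + 1 then m + 1 else m + 2) := by
  obtain ⟨n, rfl⟩ := Nat.exists_eq_add_of_le' (show 2 ≤ n by omega)
  constructor
  · apply value hm hn cycleGraph_connected cycle_cyc
    intro j j' _ h1 h2
    rw [cycle_dist, cycle_dist] at h1 h2
    exact ⟨h1, h2⟩
  · apply value hm hn (pathGraph_connected _) path_cyc
    intro j j' _ h1 h2
    rw [path_dist, path_dist] at h1 h2
    have := j.isLt
    have := j'.isLt
    omega

end Pool.Agent.Results.MP_6ba634_co.LocatingPrisms
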